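import Mathlib

set_option autoImplicit false

namespace Pool.Agent.P.MP_1144d4_gt

open Set

/-- A continuous positive scale below which a continuous family of maps oscillates little. -/
theorem exists_scale {P : Type*} [TopologicalSpace P] (G : P → Icc (0:ℝ) 1 → ℝ)
    (hG : Continuous (Function.uncurry G)) (δ : P → ℝ) (hδ : Continuous δ)
    (hpos : ∀ g, 0 < δ g) :
    ∃ r : P → ℝ, Continuous r ∧ (∀ g, 0 < r g) ∧ (∀ g, r g ≤ δ g) ∧
      ∀ g (x y : Icc (0:ℝ) 1), |(x:ℝ) - y| < r g → |G g x - G g y| + |(x:ℝ) - y| < δ g := by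
  let F : P → Icc (0:ℝ) 1 × Icc (0:ℝ) 1 → ℝ := fun g q =>
    |(q.1:ℝ) - q.2| + max 0 (δ g - |G g q.1 - G g q.2| - |(q.1:ℝ) - q.2|)
  have h1 : Continuous fun z : P × (Icc (0:ℝ) 1 × Icc (0:ℝ) 1) => G z.1 z.2.1 :=
    hG.comp (continuous_fst.prodMk (continuous_fst.comp continuous_snd))
  have h2 : Continuous fun z : P × (Icc (0:ℝ) 1 × Icc (0:ℝ) 1) => G z.1 z.2.2 :=
    hG.comp (continuous_fst.prodMk (continuous_snd.comp continuous_snd))
  have hF : Continuous (↿F) := by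
    change Continuous fun z : P × (Icc (0:ℝ) 1 × Icc (0:ℝ) 1) =>
      |(z.2.1:ℝ) - z.2.2| + max 0 (δ z.1 - |G z.1 z.2.1 - G z.1 z.2.2| - |(z.2.1:ℝ) - z.2.2|)
    fun_prop
  have hFg : ∀ g, Continuous (F g) := fun g => hF.comp (Continuous.prodMk_right g)
  have hmin : ∀ g, ∃ q, sInf (F g '' univ) = F g q ∧ ∀ q', F g q ≤ F g q' := by
    intro g
    obtain ⟨q, -, hq, hq'⟩ := (isCompact_univ (X := Icc (0:ℝ) 1 × Icc (0:ℝ) 1)).exists_sInf_image_eq_and_le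
      ⟨(⟨0, by simp⟩, ⟨0, by simp⟩), mem_univ _⟩ (hFg g).continuousOn
    exact ⟨q, hq, fun q' => hq' q' (mem_univ _)⟩
  refine ⟨fun g => sInf (F g '' univ), isCompact_univ.continuous_sInf hF, ?_, ?_, ?_⟩
  · intro g
    obtain ⟨q, hq, -⟩ := hmin g
    simp only [hq, F]
    by_cases h : q.1 = q.2
    · rw [h]; simp [hpos g]
    · have : (q.1:ℝ) - q.2 ≠ 0 := sub_ne_zero.2 (fun h' => h (Subtype.ext h'))
      have := abs_pos.2 this
      have := le_max_left 0 (δ g - |G g q.1 - G g q.2| - |(q.1:ℝ) - q.2|)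
      linarith
  · intro g
    obtain ⟨q, hq, hq'⟩ := hmin g
    have := hq' (⟨0, by simp⟩, ⟨0, by simp⟩)
    simp only [hq]
    refine this.trans ?_
    simp [F, (hpos g).le]
  · intro g x y hxy
    obtain ⟨q, hq, hq'⟩ := hmin g
    have h3 := hq' (x, y)
    simp only [hq] at hxy
    have h4 : |(x:ℝ) - y| < |(x:ℝ) - y| + max 0 (δ g - |G g x - G g y| - |(x:ℝ) - y|) :=
      hxy.trans_le h3
    have h5 : 0 < max 0 (δ g - |G g x - G g y| - |(x:ℝ) - y|) := by linarith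
    rcases lt_max_iff.1 h5 with h | h
    · exact absurd h (lt_irrefl _)
    · linarith

/-- A surjection with a trapping interval is not a limit of transitive maps. -/
theorem not_mem_closure
    (f : {f : C(Icc (0:ℝ) 1, Icc (0:ℝ) 1) // Function.Surjective ⇑f}) (a b η : ℝ)
    (ha : 0 ≤ a) (hb : b ≤ 1) (hab : a < b) (hlen : b - a < 1) (hη : 0 < η)
    (hf : ∀ x : Icc (0:ℝ) 1, a ≤ x → (x:ℝ) ≤ b → a + η ≤ (f.1 x : ℝ) ∧ (f.1 x : ℝ) ≤ b - η) :
    f ∉ closure {h : {f : C(Icc (0:ℝ) 1, Icc (0:ℝ) 1) // Function.Surjective ⇑f} |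
            ∀ U V : Set (Icc (0:ℝ) 1), IsOpen U → IsOpen V → U.Nonempty → V.Nonempty →
              ∃ n : ℕ, 0 < n ∧ ((⇑h.1)^[n] '' U ∩ V).Nonempty} := by
  intro hcl
  obtain ⟨h, hT, hd⟩ := Metric.mem_closure_iff.1 hcl η hη
  have hd' : ∀ x, |(f.1 x : ℝ) - h.1 x| < η := by
    intro x
    have h1 : dist (f.1 x) (h.1 x) ≤ dist f.1 h.1 := ContinuousMap.dist_apply_le_dist x
    have h2 : dist f.1 h.1 < η := hd
    have h3 : dist (f.1 x) (h.1 x) = |(f.1 x : ℝ) - h.1 x| := rfl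
    linarith
  have hstep : ∀ x : Icc (0:ℝ) 1, a ≤ x → (x:ℝ) ≤ b → a ≤ (h.1 x : ℝ) ∧ (h.1 x : ℝ) ≤ b := by
    intro x h1 h2
    have h3 := hf x h1 h2
    have h4 := abs_lt.1 (hd' x)
    constructor <;> linarith [h3.1, h3.2, h4.1, h4.2]
  have hiter : ∀ (n : ℕ) (x : Icc (0:ℝ) 1), a ≤ x → (x:ℝ) ≤ b →
      a ≤ ((⇑h.1)^[n] x : ℝ) ∧ ((⇑h.1)^[n] x : ℝ) ≤ b := by
    intro n
    induction n with
    | zero => intro x h1 h2; exact ⟨h1, h2⟩
    | succ n ih =>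
      intro x h1 h2
      rw [Function.iterate_succ_apply']
      exact hstep _ (ih x h1 h2).1 (ih x h1 h2).2
  have hU : IsOpen {x : Icc (0:ℝ) 1 | a < (x:ℝ) ∧ (x:ℝ) < b} :=
    (isOpen_Ioo (a := a) (b := b)).preimage continuous_subtype_val
  have hV : IsOpen {x : Icc (0:ℝ) 1 | ¬ (a ≤ (x:ℝ) ∧ (x:ℝ) ≤ b)} :=
    ((isClosed_Icc (a := a) (b := b)).preimage continuous_subtype_val).isOpen_compl
  have hUne : {x : Icc (0:ℝ) 1 | a < (x:ℝ) ∧ (x:ℝ) < b}.Nonempty :=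
    ⟨⟨(a + b) / 2, by constructor <;> linarith⟩, by
      constructor <;> (simp only []; linarith)⟩
  have hVne : {x : Icc (0:ℝ) 1 | ¬ (a ≤ (x:ℝ) ∧ (x:ℝ) ≤ b)}.Nonempty := by
    by_cases h0 : 0 < a
    · exact ⟨⟨0, by simp⟩, fun hh => by have := hh.1; simp only [] at this; linarith⟩
    · exact ⟨⟨1, by simp⟩, fun hh => by have := hh.2; simp only [] at this; linarith⟩
  obtain ⟨n, -, y, ⟨x, hx, rfl⟩, hy⟩ := hT _ _ hU hV hUne hVne
  exact hy (hiter n x hx.1.le hx.2.le)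

/-- The wiggle x - ρ sin (x / ρ) contracts a neighbourhood of each multiple of 2πρ. -/
theorem wiggle_trap (ρ : ℝ) (hρ : 0 < ρ) (k : ℤ) (x : ℝ)
    (hx : |x - 2 * Real.pi * k * ρ| ≤ ρ) :
    |x - ρ * Real.sin (x / ρ) - 2 * Real.pi * k * ρ| ≤ ρ / 2 := by
  set u : ℝ := x / ρ - k * (2 * Real.pi) with hu
  have hxu : x - 2 * Real.pi * k * ρ = ρ * u := by rw [hu]; field_simp
  have hsin : Real.sin (x / ρ) = Real.sin u := by
    rw [hu, Real.sin_sub_int_mul_two_pi]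
  have hu1 : |u| ≤ 1 := by
    rw [hxu, abs_mul, abs_of_pos hρ] at hx
    by_contra hc
    have : ρ * 1 < ρ * |u| := mul_lt_mul_of_pos_left (not_le.1 hc) hρ
    linarith
  have hb := Real.sin_bound hu1
  have h5 : |u| ^ 5 ≤ 1 := pow_le_one₀ (abs_nonneg u) hu1
  have h3 : |u ^ 3| ≤ 1 := by rw [abs_pow]; exact pow_le_one₀ (abs_nonneg u) hu1
  have key : |u - Real.sin u| ≤ 1 / 2 := by
    have h6 := abs_le.1 hb
    have h7 := abs_le.1 h3
    rw [abs_le]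
    constructor <;> linarith [h6.1, h6.2, h7.1, h7.2]
  have : x - ρ * Real.sin (x / ρ) - 2 * Real.pi * k * ρ = ρ * (u - Real.sin u) := by
    rw [hsin]; linarith
  rw [this, abs_mul, abs_of_pos hρ]
  have := mul_le_mul_of_nonneg_left key hρ.le
  linarith

/-- Near every point of the unit interval there is a full contracting window. -/
theorem exists_window (ρ : ℝ) (hρ : 0 < ρ) (hρ' : ρ ≤ 1 / 20) (p : ℝ) (hp0 : 0 ≤ p) (hp1 : p ≤ 1) :
    ∃ k : ℤ, 0 ≤ 2 * Real.pi * k * ρ - ρ ∧ 2 * Real.pi * k * ρ + ρ ≤ 1 ∧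
      p - 10 * ρ < 2 * Real.pi * k * ρ - ρ ∧ 2 * Real.pi * k * ρ + ρ < p + 10 * ρ := by
  have hpi := Real.pi_pos
  have hpi' := Real.pi_lt_d2
  have main : ∀ q : ℝ, ∃ k : ℤ, q ≤ 2 * Real.pi * k * ρ - ρ ∧ 2 * Real.pi * k * ρ + ρ < q + 9 * ρ := by
    intro q
    have hpos : 0 < 2 * Real.pi * ρ := by positivity
    refine ⟨⌈(q + ρ) / (2 * Real.pi * ρ)⌉, ?_, ?_⟩
    · have h1 := Int.le_ceil ((q + ρ) / (2 * Real.pi * ρ))
      rw [div_le_iff₀ hpos] at h1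
      linarith
    · have h1 := Int.ceil_lt_add_one ((q + ρ) / (2 * Real.pi * ρ))
      have h2 : (⌈(q + ρ) / (2 * Real.pi * ρ)⌉ : ℝ) * (2 * Real.pi * ρ) <
          ((q + ρ) / (2 * Real.pi * ρ) + 1) * (2 * Real.pi * ρ) :=
        mul_lt_mul_of_pos_right h1 hpos
      rw [add_mul, div_mul_cancel₀ _ hpos.ne'] at h2
      have h3 : Real.pi * ρ < 3.15 * ρ := mul_lt_mul_of_pos_right hpi' hρ
      linarith
  by_cases h : p ≤ 1 / 2
  · obtain ⟨k, h1, h2⟩ := main p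
    exact ⟨k, by linarith, by linarith, by linarith, by linarith⟩
  · obtain ⟨k, h1, h2⟩ := main (p - 9 * ρ)
    push Not at h
    exact ⟨k, by linarith, by linarith, by linarith, by linarith⟩

end Pool.Agent.P.MP_1144d4_gt
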