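import Pool.Agent.P.MP_3c7b76_co.Kak

/-! Tools: staircase functions, continuous scales, fixed points on cubes. -/

namespace Pool.Agent.P.MP_1144d4_gt.Cb

open Set Filter Topology Real

/-- the unit interval -/
abbrev J : Type := Icc (0 : ℝ) 1

/-- the clamp -/
noncomputable def cl (x : ℝ) : J := projIcc 0 1 zero_le_one x

theorem cl_cont : Continuous cl := continuous_projIcc (h := zero_le_one)

theorem cl_coe (x : J) : cl x = x := projIcc_val zero_le_one x

theorem cl_sub (x : ℝ) (y : J) : |(cl x : ℝ) - y| ≤ |x - y| := by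
  have := Set.abs_projIcc_sub_projIcc (a := (0 : ℝ)) (b := 1) (c := x) (d := y) zero_le_one
  rwa [projIcc_val] at this

/-- the staircase at scale `ρ` -/
noncomputable def tw (ρ x : ℝ) : ℝ := x - ρ * arcsin (sin (x / ρ))

theorem tw_sub {ρ : ℝ} (hρ : 0 < ρ) (x : ℝ) : |tw ρ x - x| ≤ 2 * ρ := by
  have h1 := arcsin_le_pi_div_two (sin (x / ρ))
  have h2 := neg_pi_div_two_le_arcsin (sin (x / ρ))
  have h3 := pi_le_four
  rw [tw, abs_le]
  constructor <;> nlinarith

theorem tw_eq {ρ x : ℝ} (hρ : 0 < ρ) (k : ℤ) (h : |x - 2 * π * k * ρ| ≤ π / 2 * ρ) :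
    tw ρ x = 2 * π * k * ρ := by
  have h1 : x / ρ = (x - 2 * π * k * ρ) / ρ + k * (2 * π) := by field_simp; ring
  have h2 := abs_le.1 h
  rw [tw, h1, sin_add_int_mul_two_pi, arcsin_sin]
  · field_simp; ring
  · rw [le_div_iff₀ hρ]; linarith [h2.1]
  · rw [div_le_iff₀ hρ]; linarith [h2.2]

theorem cos_ge {ρ x : ℝ} (hρ : 0 < ρ) (k : ℤ) (h : |x - 2 * π * k * ρ| ≤ ρ) :
    1 / 2 ≤ cos (x / ρ) := by
  have h1 : x / ρ = (x - 2 * π * k * ρ) / ρ + k * (2 * π) := by field_simp; ring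
  have h2 : |(x - 2 * π * k * ρ) / ρ| ≤ 1 := by
    rw [abs_div, abs_of_pos hρ, div_le_one hρ]; exact h
  rw [h1, cos_add_int_mul_two_pi]
  have h3 := sq_le_one_iff_abs_le_one _ |>.2 h2
  linarith [one_sub_sq_div_two_le_cos (x := (x - 2 * π * k * ρ) / ρ)]

/-- every value of the staircase is taken outside the windows -/
theorem exists_out {ρ : ℝ} (hρ : 0 < ρ) (hρ' : ρ ≤ 1 / 4) (x : J) :
    ∃ y : J, tw ρ y = tw ρ x ∧ cos (y / ρ) ≤ 0 := by
  have hπ := pi_pos
  have hπ' := pi_le_four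
  obtain ⟨k, hk⟩ : ∃ k : ℤ, |(x : ℝ) / ρ - k * (2 * π)| ≤ π := by
    refine ⟨round (x / ρ / (2 * π)), ?_⟩
    have h1 := abs_sub_round ((x : ℝ) / ρ / (2 * π))
    have h2 : (x : ℝ) / ρ - round (x / ρ / (2 * π)) * (2 * π) =
        (x / ρ / (2 * π) - round (x / ρ / (2 * π))) * (2 * π) := by field_simp
    rw [h2, abs_mul, abs_of_pos (by positivity : 0 < 2 * π)]
    nlinarith
  by_cases h : π / 2 ≤ |(x : ℝ) / ρ - k * (2 * π)|
  · refine ⟨x, rfl, ?_⟩
    rw [← cos_sub_int_mul_two_pi _ k, ← cos_abs]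
    exact cos_nonpos_of_pi_div_two_le_of_le h (by linarith)
  have h1 : |(x : ℝ) - 2 * π * k * ρ| ≤ π / 2 * ρ := by
    have : (x : ℝ) - 2 * π * k * ρ = (x / ρ - k * (2 * π)) * ρ := by field_simp
    rw [this, abs_mul, abs_of_pos hρ]
    exact mul_le_mul_of_nonneg_right (le_of_not_ge h) hρ.le
  have h2 := abs_le.1 h1
  have h3 : 0 < π * ρ := by positivity
  by_cases h4 : 0 ≤ 2 * π * k * ρ - π / 2 * ρ
  · refine ⟨⟨2 * π * k * ρ - π / 2 * ρ, h4, by linarith [x.2.2, h2.1]⟩, ?_, ?_⟩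
    · rw [tw_eq hρ k h1]
      exact tw_eq hρ k (by rw [abs_le]; constructor <;> simp only <;> linarith)
    · have : (2 * π * k * ρ - π / 2 * ρ) / ρ = -(π / 2) + k * (2 * π) := by field_simp; ring
      simp only [this, cos_add_int_mul_two_pi, cos_neg, cos_pi_div_two, le_refl]
  · have h5 : (k : ℝ) < 1 := by
      by_contra h6
      nlinarith [mul_le_mul_of_nonneg_left (le_of_not_gt h6) h3.le]
    have h6 : (-1 : ℝ) < k := by
      by_contra h7
      nlinarith [mul_le_mul_of_nonneg_left (le_of_not_gt h7) h3.le, x.2.1, h2.2]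
    have h7 : k = 0 := by
      have a : k < 1 := by exact_mod_cast h5
      have b : -1 < k := by exact_mod_cast h6
      omega
    subst h7
    refine ⟨⟨π / 2 * ρ, by positivity, by nlinarith⟩, ?_, ?_⟩
    · rw [tw_eq hρ 0 h1]
      exact tw_eq hρ 0 (by rw [abs_le]; constructor <;> simp <;> linarith)
    · have : π / 2 * ρ / ρ = π / 2 := by field_simp
      simp only [this, cos_pi_div_two, le_refl]

/-- the stretched staircase -/
noncomputable def ta (ρ x : ℝ) : J := cl ((1 + 4 * ρ) * tw ρ x)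

theorem ta_sub {ρ : ℝ} (hρ : 0 < ρ) (hρ' : ρ ≤ 1 / 4) (x : J) : |(ta ρ x : ℝ) - x| ≤ 8 * ρ := by
  refine (cl_sub _ _).trans ?_
  have h := abs_le.1 (tw_sub hρ x)
  have h0 := x.2.1
  have h1 := x.2.2
  rw [abs_le]
  constructor <;> nlinarith

theorem tw_cont {Z : Type*} [TopologicalSpace Z] {ρ x : Z → ℝ} (hρ : Continuous ρ)
    (h0 : ∀ z, 0 < ρ z) (hx : Continuous x) : Continuous fun z => tw (ρ z) (x z) :=
  hx.sub (hρ.mul (continuous_arcsin.comp (continuous_sin.comp (hx.div hρ fun z => (h0 z).ne'))))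

theorem ta_cont {Z : Type*} [TopologicalSpace Z] {ρ x : Z → ℝ} (hρ : Continuous ρ)
    (h0 : ∀ z, 0 < ρ z) (hx : Continuous x) : Continuous fun z => ta (ρ z) (x z) :=
  cl_cont.comp ((continuous_const.add (continuous_const.mul hρ)).mul (tw_cont hρ h0 hx))

theorem ta_surj {ρ : ℝ} (hρ : 0 < ρ) (hρ' : ρ ≤ 1 / 4) (z : J) :
    ∃ y : J, ta ρ y = z ∧ cos (y / ρ) ≤ 0 := by
  have hc : Continuous fun x : J => ta ρ x :=
    ta_cont continuous_const (fun _ => hρ) continuous_subtype_val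
  have h0 : ta ρ (0 : J) = 0 := projIcc_of_le_left zero_le_one (by simp [tw])
  have h1 : ta ρ (1 : J) = 1 := projIcc_of_right_le zero_le_one (by
    have h := abs_le.1 (tw_sub hρ (1 : J))
    have e : ((1 : J) : ℝ) = 1 := rfl
    rw [e] at h ⊢
    nlinarith [h.1])
  have h2 := intermediate_value_univ (0 : J) 1 hc
  rw [h0, h1] at h2
  obtain ⟨x, hx⟩ := h2 ⟨z.2.1, z.2.2⟩
  obtain ⟨y, h3, h4⟩ := exists_out hρ hρ' x
  exact ⟨y, by rw [← hx, ta, h3]; rfl, h4⟩

theorem exists_centre {ρ : ℝ} (hρ : 0 < ρ) (p : J) :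
    ∃ (k : ℤ) (c : J), (c : ℝ) = 2 * π * k * ρ ∧ |(c : ℝ) - p| ≤ 8 * ρ := by
  have hπ := pi_pos
  have h0 : 0 < 2 * π * ρ := by positivity
  have h1 := Int.floor_le ((p : ℝ) / (2 * π * ρ))
  have h2 := Int.lt_floor_add_one ((p : ℝ) / (2 * π * ρ))
  have h3 : (0 : ℝ) ≤ ⌊(p : ℝ) / (2 * π * ρ)⌋ := by
    exact_mod_cast Int.floor_nonneg.2 (div_nonneg p.2.1 h0.le)
  rw [le_div_iff₀ h0] at h1
  rw [div_lt_iff₀ h0] at h2
  refine ⟨⌊(p : ℝ) / (2 * π * ρ)⌋, ⟨2 * π * ⌊(p : ℝ) / (2 * π * ρ)⌋ * ρ, by positivity,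
    by linarith [p.2.2]⟩, rfl, ?_⟩
  have h4 := mul_le_mul_of_nonneg_right pi_le_four hρ.le
  rw [abs_le]
  constructor <;> simp only <;> linarith

/-- a continuous scale -/
theorem exists_scale {P : Type*} [TopologicalSpace P] [NormalSpace P] [ParacompactSpace P]
    (Φ : P → ℝ → Prop) (hm : ∀ g r r', 0 < r' → r' ≤ r → Φ g r → Φ g r')
    (hl : ∀ g, ∀ᶠ z in 𝓝 (g, (0 : ℝ)), Φ z.1 z.2) :
    ∃ r : P → ℝ, Continuous r ∧ ∀ g, 0 < r g ∧ Φ g (r g) := by
  obtain ⟨r, hr⟩ := exists_continuous_forall_mem_convex_of_local_const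
    (t := fun g => {r : ℝ | 0 < r ∧ Φ g r})
    (fun g => convex_iff_ordConnected.2 ⟨fun a ha b hb c hc =>
      ⟨ha.1.trans_le hc.1, hm g b c (ha.1.trans_le hc.1) hc.2 hb.2⟩⟩) fun g => by
      have h := hl g
      rw [nhds_prod_eq, eventually_prod_iff] at h
      obtain ⟨U, hU, V, hV, h⟩ := h
      obtain ⟨c, h1, h2⟩ := ((hV.filter_mono (nhdsWithin_le_nhds (s := Ioi 0))).and
        self_mem_nhdsWithin).exists
      exact ⟨c, hU.mono fun y hy => ⟨h2, h hy h1⟩⟩
  exact ⟨r, r.continuous, hr⟩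

/-- the fixed point theorem on a cube -/
theorem fixed {ι : Type} [Nonempty ι] {f : (ι → J) → ι → J} (hf : Continuous f) :
    ∃ x, f x = x := by
  classical
  obtain ⟨x, -, hx⟩ := (isCompact_univ (X := ι → J)).inter_iInter_nonempty
    (fun i => {x | f x i = x i})
    (fun i => isClosed_eq ((continuous_apply i).comp hf) (continuous_apply i)) fun u => by
      let s : Finset ι := insert (Classical.arbitrary ι) u
      have : Nonempty s := ⟨⟨_, Finset.mem_insert_self _ _⟩⟩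
      let E : (s → ℝ) → ι → J := fun t i => if h : i ∈ s then cl (t ⟨i, h⟩) else 0
      have hE : Continuous E := continuous_pi fun i => by
        by_cases h : i ∈ s
        · simp only [E, dif_pos h]; exact cl_cont.comp (continuous_apply _)
        · simp only [E, dif_neg h]; exact continuous_const
      obtain ⟨t, ht⟩ := MP_3c7b76_co.brouwer (F := fun t (i : s) => (f (E t) i : ℝ))
        (continuous_pi fun i => continuous_subtype_val.comp
          ((continuous_apply _).comp (hf.comp hE)))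
        fun t => (pi_norm_le_iff_of_nonneg zero_le_one).2 fun i => by
          rw [Real.norm_of_nonneg (f (E t) i).2.1]; exact (f (E t) i).2.2
      refine ⟨E t, mem_univ _, mem_iInter₂.2 fun i hi => ?_⟩
      have hs : i ∈ s := Finset.mem_insert_of_mem hi
      have h1 : t ⟨i, hs⟩ = f (E t) i := (congrFun ht ⟨i, hs⟩).symm
      change f (E t) i = E t i
      conv_rhs => simp only [E, dif_pos hs]
      rw [h1, cl_coe]
  exact ⟨x, funext fun i => mem_iInter.1 hx i⟩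

end Pool.Agent.P.MP_1144d4_gt.Cb
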