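import Pool.Agent.P.MP_1144d4_gt.Cube1

/-! Pushing a family of surjections of a cube to surjections that are constant near a fixed point. -/

namespace Pool.Agent.P.MP_1144d4_gt.Cb

open Set Filter Topology Real Function

variable {ι : Type}

/-- the blend -/
noncomputable def bl (l : ℝ) (y z : ι → J) : ι → J := fun i => cl (l * y i + (1 - l) * z i)

theorem bl_zero (y z : ι → J) : bl 0 y z = z := funext fun i => by simp [bl, cl_coe]

theorem bl_one (y z : ι → J) : bl 1 y z = y := funext fun i => by simp [bl, cl_coe]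

theorem bl_self (l : ℝ) (z : ι → J) : bl l z z = z := funext fun i => by
  rw [bl, show l * (z i : ℝ) + (1 - l) * z i = z i by ring, cl_coe]

theorem bl_cont {Z : Type*} [TopologicalSpace Z] {l : Z → ℝ} {y z : Z → ι → J} (hl : Continuous l)
    (hy : Continuous y) (hz : Continuous z) : Continuous fun w => bl (l w) (y w) (z w) :=
  continuous_pi fun i => cl_cont.comp
    ((hl.mul (continuous_subtype_val.comp ((continuous_apply i).comp hy))).add
      ((continuous_const.sub hl).mul (continuous_subtype_val.comp ((continuous_apply i).comp hz))))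

/-- a continuous metric on the cube -/
structure Dst (d : (ι → J) → (ι → J) → ℝ) : Prop where
  cont : Continuous fun z : (ι → J) × (ι → J) => d z.1 z.2
  self : ∀ y, d y y = 0
  pos : ∀ y z, y ≠ z → 0 < d y z
  symm : ∀ y z, d y z = d z y
  tri : ∀ x y z, d x z ≤ d x y + d y z

theorem Dst.nonneg {d : (ι → J) → (ι → J) → ℝ} (h : Dst d) (y z : ι → J) : 0 ≤ d y z := by
  linarith [h.tri y z y, h.self y, h.symm y z]

theorem Dst.comp {d : (ι → J) → (ι → J) → ℝ} (h : Dst d) {Z : Type*} [TopologicalSpace Z]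
    {y z : Z → ι → J} (hy : Continuous y) (hz : Continuous z) : Continuous fun w => d (y w) (z w) :=
  h.cont.comp (hy.prodMk hz)

variable {P : Type} [TopologicalSpace P] [NormalSpace P] [ParacompactSpace P]
  {d : (ι → J) → (ι → J) → ℝ}

theorem exists_delta (hd : Dst d) {ε : P → ℝ} (hε : Continuous ε) (h0 : ∀ g, 0 < ε g) :
    ∃ δ : P → ℝ, Continuous δ ∧ ∀ g, 0 < δ g ∧ δ g ≤ ε g ∧
      ∀ (l : J) y z, d y z ≤ 4 * δ g → d (bl l y z) z < ε g := by
  refine exists_scale (fun g r => r ≤ ε g ∧ ∀ (l : J) y z, d y z ≤ 4 * r → d (bl l y z) z < ε g)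
    (fun g r r' _ h1 h2 => ⟨h1.trans h2.1, fun l y z h => h2.2 l y z (by linarith)⟩) fun g => ?_
  refine Eventually.and ?_ ?_
  · exact (continuous_snd.continuousAt.eventually_lt (hε.comp continuous_fst).continuousAt
      (h0 g)).mono fun _ h => h.le
  have key := (isCompact_univ (X := J × (ι → J) × (ι → J))).eventually_forall_of_forall_eventually
    (x₀ := (g, (0 : ℝ))) (P := fun (z : P × ℝ) w => d w.2.1 w.2.2 ≤ 4 * z.2 →
      d (bl w.1 w.2.1 w.2.2) w.2.2 < ε z.1) fun w _ => by
      by_cases h : w.2.1 = w.2.2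
      · have c1 : Continuous fun z : (P × ℝ) × J × (ι → J) × (ι → J) =>
            d (bl z.2.1 z.2.2.1 z.2.2.2) z.2.2.2 :=
          hd.comp (bl_cont (by fun_prop) (by fun_prop) (by fun_prop)) (by fun_prop)
        have c2 : Continuous fun z : (P × ℝ) × J × (ι → J) × (ι → J) => ε z.1.1 := by fun_prop
        refine (c1.continuousAt.eventually_lt c2.continuousAt ?_).mono fun _ a _ => a
        simp only [h, bl_self, hd.self, h0]
      · have c1 : Continuous fun z : (P × ℝ) × J × (ι → J) × (ι → J) => d z.2.2.1 z.2.2.2 :=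
          hd.comp (by fun_prop) (by fun_prop)
        have c2 : Continuous fun z : (P × ℝ) × J × (ι → J) × (ι → J) => 4 * z.1.2 := by fun_prop
        refine (c2.continuousAt.eventually_lt c1.continuousAt ?_).mono fun _ a b =>
          absurd b (not_le.2 a)
        simpa using hd.pos _ _ h
  exact key.mono fun z h l y w => h (l, y, w) (mem_univ _)

theorem exists_rho (hd : Dst d) (a : ι → ℝ) (ha : ∀ i, 0 < a i) (m : ℝ) {v : P → (ι → J) → ι → J}
    (hv : Continuous fun z : P × (ι → J) => v z.1 z.2) {δ : P → ℝ} (hδ : Continuous δ)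
    (h0 : ∀ g, 0 < δ g) :
    ∃ ρ : P → ℝ, Continuous ρ ∧ ∀ g, 0 < ρ g ∧ m * ρ g ≤ 1 / 4 ∧ ∀ x y : ι → J,
      (∀ i, |(x i : ℝ) - y i| ≤ 20 * (a i * ρ g)) → d (v g x) (v g y) + d x y < δ g := by
  obtain ⟨ρ, h1, h2⟩ := exists_scale (fun g r => |m| * r ≤ 1 / 4 ∧ ∀ x y : ι → J,
      (∀ i, |(x i : ℝ) - y i| ≤ 20 * (a i * r)) → d (v g x) (v g y) + d x y < δ g)
    (fun g r r' _ h1 h2 => ⟨(mul_le_mul_of_nonneg_left h1 (abs_nonneg m)).trans h2.1,
      fun x y h => h2.2 x y fun i => (h i).trans (by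
        linarith [mul_le_mul_of_nonneg_left h1 (ha i).le])⟩) fun g => by
      refine Eventually.and ?_ ?_
      · have c1 : Continuous fun z : P × ℝ => |m| * z.2 := by fun_prop
        exact (c1.continuousAt.eventually_lt continuousAt_const (by norm_num)).mono fun _ h => h.le
      have key := (isCompact_univ (X := (ι → J) × (ι → J))).eventually_forall_of_forall_eventually
        (x₀ := (g, (0 : ℝ))) (P := fun (z : P × ℝ) w =>
          (∀ i, |(w.1 i : ℝ) - w.2 i| ≤ 20 * (a i * z.2)) →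
            d (v z.1 w.1) (v z.1 w.2) + d w.1 w.2 < δ z.1) fun w _ => by
          by_cases h : w.1 = w.2
          · have c1 : Continuous fun z : (P × ℝ) × (ι → J) × (ι → J) =>
                d (v z.1.1 z.2.1) (v z.1.1 z.2.2) + d z.2.1 z.2.2 :=
              (hd.comp (hv.comp (f := fun z : (P × ℝ) × (ι → J) × (ι → J) => (z.1.1, z.2.1))
                (by fun_prop)) (hv.comp (f := fun z : (P × ℝ) × (ι → J) × (ι → J) =>
                  (z.1.1, z.2.2)) (by fun_prop))).add (hd.comp (by fun_prop) (by fun_prop))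
            have c2 : Continuous fun z : (P × ℝ) × (ι → J) × (ι → J) => δ z.1.1 := by fun_prop
            refine (c1.continuousAt.eventually_lt c2.continuousAt ?_).mono fun _ a _ => a
            simp only [h, hd.self, add_zero, h0]
          · obtain ⟨i, hi⟩ := Function.ne_iff.1 h
            have c1 : Continuous fun z : (P × ℝ) × (ι → J) × (ι → J) =>
                |(z.2.1 i : ℝ) - z.2.2 i| := by fun_prop
            have c2 : Continuous fun z : (P × ℝ) × (ι → J) × (ι → J) => 20 * (a i * z.1.2) := by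
              fun_prop
            refine (c2.continuousAt.eventually_lt c1.continuousAt ?_).mono fun _ a b =>
              absurd (b i) (not_le.2 a)
            simpa [sub_eq_zero, Subtype.val_inj] using hi
      exact key.mono fun z h x y => h (x, y) (mem_univ _)
  exact ⟨ρ, h1, fun g => ⟨(h2 g).1,
    (mul_le_mul_of_nonneg_right (le_abs_self m) (h2 g).1.le).trans (h2 g).2.1, (h2 g).2.2⟩⟩

theorem core [Countable ι] [Nonempty ι] (hd : Dst d) {v : P → (ι → J) → ι → J}
    (hv : Continuous fun z : P × (ι → J) => v z.1 z.2) (hs : ∀ g, Surjective (v g))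
    {ε : P → ℝ} (hε : Continuous ε) (h0 : ∀ g, 0 < ε g) :
    ∃ ψ : P → (ι → J) → ι → J, (Continuous fun z : P × (ι → J) => ψ z.1 z.2) ∧
      (∀ g, Surjective (ψ g)) ∧ (∀ g y, d (ψ g y) (v g y) < 2 * ε g) ∧
      ∀ g, ∃ c, ∀ᶠ y in 𝓝 c, ψ g y = c := by
  classical
  obtain ⟨n, hn⟩ := exists_injective_nat ι
  obtain ⟨i₀⟩ := ‹Nonempty ι›
  obtain ⟨a, ha⟩ : ∃ a : ι → ℝ, ∀ i, a i = n i + 1 := ⟨_, fun _ => rfl⟩
  have a0 : ∀ i, 0 < a i := fun i => by rw [ha]; positivity
  obtain ⟨δ, δc, hδ⟩ := exists_delta hd hε h0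
  obtain ⟨ρ, ρc, hρ⟩ := exists_rho hd a a0 (a i₀) hv δc fun g => (hδ g).1
  have r0 : ∀ g i, 0 < a i * ρ g := fun g i => mul_pos (a0 i) (hρ g).1
  obtain ⟨θ, hθ⟩ : ∃ θ : P → (ι → J) → ι → J, ∀ g x i, θ g x i = cl (tw (a i * ρ g) (x i)) :=
    ⟨fun g x i => _, fun _ _ _ => rfl⟩
  obtain ⟨κ, hκ⟩ : ∃ κ : P → (ι → J) → ι → J,
      ∀ g x, κ g x = update x i₀ (ta (a i₀ * ρ g) (x i₀)) := ⟨fun g x => _, fun _ _ => rfl⟩
  obtain ⟨l, hl⟩ : ∃ l : P → (ι → J) → J, ∀ g x, l g x =
      cl (min (2 * cos (x i₀ / (a i₀ * ρ g))) (2 - d (v g (κ g x)) (κ g x) / δ g)) :=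
    ⟨fun g x => _, fun _ _ => rfl⟩
  have rc : ∀ i, Continuous fun z : P × (ι → J) => a i * ρ z.1 := fun i => by fun_prop
  have xc : ∀ i, Continuous fun z : P × (ι → J) => (z.2 i : ℝ) := fun i => by fun_prop
  have θc : Continuous fun z : P × (ι → J) => θ z.1 z.2 := continuous_pi fun i => by
    simp only [hθ]; exact cl_cont.comp (tw_cont (rc i) (fun z => r0 z.1 i) (xc i))
  have κc : Continuous fun z : P × (ι → J) => κ z.1 z.2 := by
    simp only [hκ]
    exact continuous_snd.update i₀ (ta_cont (rc i₀) (fun z => r0 z.1 i₀) (xc i₀))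
  have vc : Continuous fun z : P × (ι → J) => v z.1 (κ z.1 z.2) :=
    hv.comp (f := fun z : P × (ι → J) => (z.1, κ z.1 z.2)) (continuous_fst.prodMk κc)
  have lc : Continuous fun z : P × (ι → J) => l z.1 z.2 := by
    simp only [hl]
    exact cl_cont.comp ((continuous_const.mul (continuous_cos.comp ((xc i₀).div (rc i₀)
      fun z => (r0 z.1 i₀).ne'))).min (continuous_const.sub ((hd.comp vc κc).div
        (δc.comp continuous_fst) fun z => (hδ z.1).1.ne')))
  have κn : ∀ g x i, |(κ g x i : ℝ) - x i| ≤ 8 * (a i * ρ g) := fun g x i => by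
    rw [hκ]
    by_cases h : i = i₀
    · subst h; rw [update_self]; exact ta_sub (r0 g i) (hρ g).2.1 _
    · rw [update_of_ne h, sub_self, abs_zero]; linarith [r0 g i]
  have l0 : ∀ g x, min (2 * cos (x i₀ / (a i₀ * ρ g))) (2 - d (v g (κ g x)) (κ g x) / δ g) ≤ 0 →
      (l g x : ℝ) = 0 := fun g x h => by
    rw [hl, cl, projIcc_of_le_left zero_le_one h]
  refine ⟨fun g x => bl (l g x) (θ g x) (v g (κ g x)),
    bl_cont (continuous_subtype_val.comp lc) θc vc, fun g y => ?_, fun g x => ?_, fun g => ?_⟩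
  · obtain ⟨z, hz⟩ := hs g y
    obtain ⟨t, h1, h2⟩ := ta_surj (r0 g i₀) (hρ g).2.1 (z i₀)
    refine ⟨update z i₀ t, ?_⟩
    beta_reduce
    rw [l0 g _ (min_le_of_left_le (by rw [update_self]; linarith)), bl_zero, hκ, update_self, h1,
      update_idem, update_eq_self, hz]
  · have h1 := (hρ g).2.2 (κ g x) x fun i => (κn g x i).trans (by linarith [r0 g i])
    have h2 := (hρ g).2.2 (θ g x) x fun i => by
      rw [hθ]; exact (cl_sub _ _).trans ((tw_sub (r0 g i) _).trans (by linarith [r0 g i]))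
    have h3 : d (bl (l g x) (θ g x) (v g (κ g x))) (v g (κ g x)) < ε g := by
      by_cases h : 2 - d (v g (κ g x)) (κ g x) / δ g ≤ 0
      · rw [l0 g x (min_le_of_right_le h), bl_zero, hd.self]; exact h0 g
      · refine (hδ g).2.2 _ _ _ ?_
        have h4 : d (v g (κ g x)) (κ g x) < 2 * δ g :=
          (div_lt_iff₀ (hδ g).1).1 (by linarith [not_le.1 h])
        linarith [hd.tri (θ g x) x (v g (κ g x)), hd.tri x (κ g x) (v g (κ g x)),
          hd.symm x (κ g x), hd.symm (κ g x) (v g (κ g x)), hd.nonneg (v g (κ g x)) (v g x),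
          hd.nonneg (v g (θ g x)) (v g x)]
    linarith [hd.tri (bl (l g x) (θ g x) (v g (κ g x))) (v g (κ g x)) (v g x),
      hd.nonneg (κ g x) x, (hδ g).2.1]
  · obtain ⟨p, hp⟩ := fixed (f := v g) (hv.comp (Continuous.prodMk_right g))
    choose k c hc hcp using fun i => exists_centre (r0 g i) (p i)
    refine ⟨c, ?_⟩
    have hW : ∀ᶠ x in 𝓝 c, ∀ i, |(x i : ℝ) - c i| ≤ a i * ρ g := by
      have hf : {i | a i * ρ g < 1}.Finite := by
        refine ((Set.finite_Iio ⌈(ρ g)⁻¹⌉₊).preimage hn.injOn).subset fun i hi => ?_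
        have h1 : (n i : ℝ) < (ρ g)⁻¹ := by
          rw [← one_div, lt_div_iff₀ (hρ g).1]
          have h2 : a i * ρ g < 1 := hi
          rw [ha] at h2
          linarith [(hρ g).1]
        exact Nat.lt_ceil.2 h1
      have h1 : ∀ᶠ x in 𝓝 c, ∀ i ∈ {i | a i * ρ g < 1}, |(x i : ℝ) - c i| < a i * ρ g :=
        (eventually_all_finite hf).2 fun i _ => by
          have c1 : Continuous fun x : ι → J => |(x i : ℝ) - c i| := by fun_prop
          exact c1.continuousAt.eventually_lt continuousAt_const (by simpa using r0 g i)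
      filter_upwards [h1] with x hx i
      by_cases h : a i * ρ g < 1
      · exact (hx i h).le
      · refine le_trans ?_ (not_lt.1 h)
        rw [abs_le]
        constructor <;> linarith [(x i).2.1, (x i).2.2, (c i).2.1, (c i).2.2]
    filter_upwards [hW] with x hx
    have h1 : θ g x = c := funext fun i => by
      rw [hθ, tw_eq (r0 g i) (k i), ← hc, cl_coe]
      rw [← hc]
      nlinarith [hx i, two_le_pi, r0 g i]
    have h2 := (hρ g).2.2 (κ g x) p fun i => by
      have b1 := abs_le.1 (κn g x i)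
      have b2 := abs_le.1 (hx i)
      have b3 := abs_le.1 (hcp i)
      rw [abs_le]
      constructor <;> linarith [r0 g i]
    have h3 : d (v g (κ g x)) (κ g x) / δ g ≤ 1 := by
      rw [div_le_one (hδ g).1]
      rw [hp] at h2
      linarith [hd.tri (v g (κ g x)) p (κ g x), hd.symm p (κ g x)]
    have h4 := cos_ge (r0 g i₀) (k i₀) (hc i₀ ▸ hx i₀)
    have h5 : (l g x : ℝ) = 1 := by
      rw [hl, cl, projIcc_of_right_le zero_le_one (le_min (by linarith) (by linarith))]
    rw [h5, bl_one, h1]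

end Pool.Agent.P.MP_1144d4_gt.Cb
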