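import Pool.Agent.P.MP_1144d4_gt.Cube2

/-! The homotopy that moves all surjections off the chain recurrent maps. -/

namespace Pool.Agent.P.MP_1144d4_gt.Cb

open Set Filter Topology Function Metric

/-- A map that is constant near a fixed point is far from the chain recurrent maps. -/
theorem far {X : Type} [MetricSpace X] {f : X → X} {c : X} [(𝓝[≠] c).NeBot]
    (h : ∀ᶠ x in 𝓝 c, f x = c) : ∃ η > 0, ∀ g : X → X, (∀ x, dist (f x) (g x) < η) →
      ¬ ∀ δ > 0, ∀ x, ∃ (m : ℕ) (s : ℕ → X), 0 < m ∧ s 0 = x ∧ s m = x ∧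
        ∀ j < m, dist (g (s j)) (s (j + 1)) < δ := by
  obtain ⟨r, hr, h1⟩ := Metric.eventually_nhds_iff.1 h
  have h0 : ∀ᶠ x in 𝓝[≠] c, x ∈ ball c r := mem_nhdsWithin_of_mem_nhds (ball_mem_nhds c hr)
  obtain ⟨x, hx, h2⟩ := (h0.and self_mem_nhdsWithin).exists
  have h3 : 0 < dist x c := dist_pos.2 h2
  refine ⟨dist x c / 2, half_pos h3, fun g hg hcr => ?_⟩
  obtain ⟨m, s, hm, s0, sm, hs⟩ := hcr _ (half_pos h3) x
  have step : ∀ j < m, dist (s j) c ≤ dist x c → dist (s (j + 1)) c < dist x c := fun j hj a => by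
    have b := hg (s j)
    rw [h1 (a.trans_lt (mem_ball.1 hx))] at b
    linarith [hs j hj, dist_triangle_left (s (j + 1)) c (g (s j)), dist_comm c (g (s j))]
  have key : ∀ j ≤ m, dist (s j) c ≤ dist x c := by
    intro j
    induction j with
    | zero => intro _; rw [s0]
    | succ j ih => exact fun hj => (step j hj (ih (by omega))).le
  obtain ⟨k, rfl⟩ := Nat.exists_eq_succ_of_ne_zero hm.ne'
  have := step k (by omega) (key k (by omega))
  rw [sm] at this
  exact lt_irrefl _ this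

/-- A transitive map is chain recurrent. -/
theorem chain_of_trans {X : Type} [MetricSpace X] {g : X → X} (hg : Continuous g)
    (h : ∀ U V : Set X, IsOpen U → IsOpen V → U.Nonempty → V.Nonempty →
      ∃ n : ℕ, 0 < n ∧ (g^[n] '' U ∩ V).Nonempty) :
    ∀ δ > 0, ∀ x, ∃ (m : ℕ) (s : ℕ → X), 0 < m ∧ s 0 = x ∧ s m = x ∧
      ∀ j < m, dist (g (s j)) (s (j + 1)) < δ := by
  intro δ hδ x
  obtain ⟨n, hn, _, ⟨y, hy, rfl⟩, hz⟩ := h (ball (g x) δ) (g ⁻¹' ball x δ) isOpen_ball
    (isOpen_ball.preimage hg) ⟨_, mem_ball_self hδ⟩ (by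
      obtain ⟨k, hk, _, ⟨y, -, rfl⟩, hz⟩ := h univ (ball x δ) isOpen_univ isOpen_ball ⟨x, trivial⟩
        ⟨_, mem_ball_self hδ⟩
      obtain ⟨k, rfl⟩ := Nat.exists_eq_succ_of_ne_zero hk.ne'
      exact ⟨g^[k] y, by rwa [iterate_succ_apply'] at hz⟩)
  refine ⟨n + 2, fun j => if j = 0 ∨ j = n + 2 then x else g^[j - 1] y, by omega, by simp,
    by simp, fun j hj => ?_⟩
  by_cases h0 : j = 0
  · subst h0
    simpa [dist_comm] using hy
  by_cases h1 : j = n + 1
  · subst h1
    simpa using hz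
  · obtain ⟨i, rfl⟩ := Nat.exists_eq_succ_of_ne_zero h0
    beta_reduce
    rw [if_neg (by omega), if_neg (by omega)]
    simpa [iterate_succ_apply'] using hδ

theorem main (ι : Type) [Countable ι] [Nonempty ι] (X : Type) [MetricSpace X]
    (e : X ≃ₜ (ι → Icc (0 : ℝ) 1)) (𝒰 : Set (Set {f : C(X, X) // Surjective f}))
    (ho : ∀ U ∈ 𝒰, IsOpen U) (hc : ∀ f, ∃ U ∈ 𝒰, f ∈ U) :
    ∃ H : Icc (0 : ℝ) 1 × {f : C(X, X) // Surjective f} → {f : C(X, X) // Surjective f},
      Continuous H ∧ (∀ f, H (0, f) = f) ∧ (∀ f, ∃ U ∈ 𝒰, ∀ t, H (t, f) ∈ U) ∧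
      ∀ t f, t ≠ 0 → H (t, f) ∉ closure {h : {f : C(X, X) // Surjective f} |
        ∀ δ > 0, ∀ x, ∃ (m : ℕ) (s : ℕ → X), 0 < m ∧ s 0 = x ∧ s m = x ∧
          ∀ j < m, dist (h.1 (s j)) (s (j + 1)) < δ} := by
  classical
  have : CompactSpace X := e.symm.compactSpace
  have : ConnectedSpace X := e.symm.surjective.connectedSpace e.symm.continuous
  have : Nontrivial X := e.symm.injective.nontrivial
  obtain ⟨lam, lc, hl⟩ := exists_scale
    (fun (g : {f : C(X, X) // Surjective f}) r => ∃ U ∈ 𝒰, ball g r ⊆ U)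
    (fun g r r' _ h1 ⟨U, h2, h3⟩ => ⟨U, h2, (ball_subset_ball h1).trans h3⟩) fun g => by
      obtain ⟨U, h1, h2⟩ := hc g
      obtain ⟨r, hr, h3⟩ := Metric.isOpen_iff.1 (ho U h1) g h2
      have c1 : Continuous fun z : {f : C(X, X) // Surjective f} × ℝ => z.2 + dist z.1 g := by
        fun_prop
      filter_upwards [c1.continuousAt.eventually_lt (continuousAt_const (y := r)) (by simpa)]
        with z hz
      exact ⟨U, h1, (ball_subset_ball' hz.le).trans h3⟩
  have t0 : ∀ t : J, t ≠ 0 → (0 : ℝ) < t := fun t h => lt_of_le_of_ne t.2.1 fun a =>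
    h (Subtype.ext a.symm)
  obtain ⟨ψ, ψc, ψs, ψd, ψt⟩ := core (ι := ι)
    (P := {z : J × {f : C(X, X) // Surjective f} // z.1 ≠ 0})
    (d := fun y z => dist (e.symm y) (e.symm z))
    ⟨by fun_prop, fun _ => dist_self _, fun y z h => dist_pos.2 (e.symm.injective.ne h),
      fun _ _ => dist_comm _ _, fun _ _ _ => dist_triangle _ _ _⟩
    (v := fun z y => e (z.1.2.1 (e.symm y)))
    (e.continuous.comp (continuous_eval.comp (Continuous.prodMk (by fun_prop) (by fun_prop))))
    (fun z => e.surjective.comp (z.1.2.2.comp e.symm.surjective))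
    (ε := fun z => z.1.1 * lam z.1.2 / 4) (by fun_prop)
    fun z => div_pos (mul_pos (t0 _ z.2) (hl _).1) four_pos
  let Ψ : {z : J × {f : C(X, X) // Surjective f} // z.1 ≠ 0} → {f : C(X, X) // Surjective f} :=
    fun z => ⟨⟨fun x => e.symm (ψ z (e x)), e.symm.continuous.comp
      (ψc.comp (continuous_const.prodMk e.continuous))⟩,
      e.symm.surjective.comp ((ψs z).comp e.surjective)⟩
  have Ψc : Continuous Ψ := by
    refine Continuous.subtype_mk (ContinuousMap.continuous_of_continuous_uncurry _ ?_) _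
    exact e.symm.continuous.comp
      (ψc.comp (continuous_fst.prodMk (e.continuous.comp continuous_snd)))
  let H : J × {f : C(X, X) // Surjective f} → {f : C(X, X) // Surjective f} :=
    fun z => if h : z.1 ≠ 0 then Ψ ⟨z, h⟩ else z.2
  have Hd : ∀ z, dist z.2 (H z) ≤ z.1 * lam z.2 / 2 := fun z => by
    have h1 : 0 ≤ z.1 * lam z.2 / 2 := div_nonneg (mul_nonneg z.1.2.1 (hl _).1.le) two_pos.le
    by_cases h : z.1 ≠ 0
    · simp only [H, dif_pos h]
      rw [dist_comm]
      refine (ContinuousMap.dist_le h1).2 fun x => ?_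
      have h2 := ψd ⟨z, h⟩ (e x)
      simp only [e.symm_apply_apply] at h2
      exact h2.le.trans_eq (by ring)
    · simp only [H, dif_neg h, dist_self]; exact h1
  refine ⟨H, continuous_iff_continuousAt.2 fun z => ?_, fun f => dif_neg (by simp), fun f => ?_,
    fun t f ht hcl => ?_⟩
  · by_cases h : z.1 ≠ 0
    · have h1 : ContinuousOn H {z | z.1 ≠ 0} := continuousOn_iff_continuous_domRestrict.2
        (Ψc.congr fun z => (show H z.1 = Ψ z from dif_pos z.2).symm)
      exact h1.continuousAt ((isOpen_ne.preimage continuous_fst).mem_nhds h)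
    · have h1 : H z = z.2 := dif_neg h
      rw [ContinuousAt, h1]
      refine (continuous_snd.tendsto z).congr_dist (squeeze_zero (fun _ => dist_nonneg) Hd ?_)
      have c1 : Continuous fun z : J × {f : C(X, X) // Surjective f} => z.1 * lam z.2 / 2 := by
        fun_prop
      simpa [not_not.1 h] using c1.tendsto z
  · obtain ⟨h1, U, h2, h3⟩ := hl f
    refine ⟨U, h2, fun t => h3 (mem_ball'.2 ((Hd (t, f)).trans_lt ?_))⟩
    nlinarith [t.2.1, t.2.2]
  · obtain ⟨c, h1⟩ := ψt ⟨(t, f), ht⟩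
    have h2 : H (t, f) = Ψ ⟨(t, f), ht⟩ := dif_pos ht
    obtain ⟨η, h3, h4⟩ := far (f := (H (t, f)).1) (c := e.symm c) (by
      have h5 : Tendsto e (𝓝 (e.symm c)) (𝓝 c) := by
        simpa using e.continuous.tendsto (e.symm c)
      filter_upwards [h5.eventually h1] with x hx
      rw [h2]
      exact congrArg e.symm hx)
    obtain ⟨g, h5, h6⟩ := Metric.mem_closure_iff.1 hcl η h3
    exact h4 g.1 (fun x => (ContinuousMap.dist_apply_le_dist x).trans_lt h6) h5

end Pool.Agent.P.MP_1144d4_gt.Cb
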