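import Mathlib
import Pool.Agent.P.MP_1144d4_gt.Basic

set_option autoImplicit false

namespace Pool.Agent.P.MP_1144d4_gt

open Set

/-- The blend of the wiggle and of the stretched map stays close to the stretched map. -/
theorem blend_close (x G δ ρ : ℝ) (hδ : 0 < δ) (hρ : 0 < ρ) :
    |((1 - max 0 (min 1 (|G - x| / δ - 1))) * (x - ρ * Real.sin (x / ρ)) +
        max 0 (min 1 (|G - x| / δ - 1)) * G) - G| ≤ 2 * δ + ρ := by
  set l : ℝ := max 0 (min 1 (|G - x| / δ - 1)) with hl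
  have hl0 : 0 ≤ l := le_max_left _ _
  have hl1 : l ≤ 1 := max_le zero_le_one (min_le_left _ _)
  have he : (1 - l) * (x - ρ * Real.sin (x / ρ)) + l * G - G
      = (1 - l) * (x - ρ * Real.sin (x / ρ) - G) := by ring
  rw [he, abs_mul, abs_of_nonneg (sub_nonneg.2 hl1)]
  by_cases h : |G - x| ≤ 2 * δ
  · have hs : |ρ * Real.sin (x / ρ)| ≤ ρ := by
      rw [abs_mul, abs_of_pos hρ]
      have := mul_le_mul_of_nonneg_left (Real.abs_sin_le_one (x / ρ)) hρ.le
      linarith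
    have h1 : |x - ρ * Real.sin (x / ρ) - G| ≤ 2 * δ + ρ := by
      have h2 := abs_le.1 h
      have h3 := abs_le.1 hs
      rw [abs_le]
      constructor <;> linarith [h2.1, h2.2, h3.1, h3.2]
    have h4 : (1 - l) * |x - ρ * Real.sin (x / ρ) - G| ≤ 1 * |x - ρ * Real.sin (x / ρ) - G| :=
      mul_le_mul_of_nonneg_right (by linarith) (abs_nonneg _)
    linarith
  · push Not at h
    have h1 : 1 ≤ |G - x| / δ - 1 := by
      rw [le_sub_iff_add_le, le_div_iff₀ hδ]; linarith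
    have h2 : l = 1 := by
      rw [hl, min_eq_left h1, max_eq_right zero_le_one]
    rw [h2]
    simp only [sub_self, zero_mul]
    positivity

/-- Near the diagonal the blend is the wiggle. -/
theorem blend_eq (x G δ ρ : ℝ) (hδ : 0 < δ) (h : |G - x| ≤ δ) :
    (1 - max 0 (min 1 (|G - x| / δ - 1))) * (x - ρ * Real.sin (x / ρ)) +
        max 0 (min 1 (|G - x| / δ - 1)) * G = x - ρ * Real.sin (x / ρ) := by
  have h1 : |G - x| / δ - 1 ≤ 0 := by
    rw [sub_nonpos, div_le_one hδ]; exact h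
  have h2 : max 0 (min 1 (|G - x| / δ - 1)) = 0 :=
    max_eq_left ((min_le_right _ _).trans h1)
  rw [h2]; ring

/-- A continuous family of blends. -/
theorem exists_blend {P : Type*} [TopologicalSpace P] (G : P → Icc (0:ℝ) 1 → ℝ)
    (hG : Continuous fun z : P × Icc (0:ℝ) 1 => G z.1 z.2) (c : P → ℝ) (hc : Continuous c)
    (hcpos : ∀ g, 0 < c g) (hc1 : ∀ g, 4 * c g ≤ 1) :
    ∃ B : P → Icc (0:ℝ) 1 → ℝ, (Continuous fun z : P × Icc (0:ℝ) 1 => B z.1 z.2) ∧
      (∀ g x, |B g x - G g x| < c g) ∧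
      ∀ g (p : Icc (0:ℝ) 1), G g p = p → ∃ a b η : ℝ, 0 ≤ a ∧ b ≤ 1 ∧ a < b ∧ b - a < 1 ∧ 0 < η ∧
        ∀ x : Icc (0:ℝ) 1, a ≤ x → (x:ℝ) ≤ b → a + η ≤ B g x ∧ B g x ≤ b - η := by
  obtain ⟨δ, hδdef⟩ : ∃ δ : P → ℝ, ∀ g, δ g = c g / 4 := ⟨fun g => c g / 4, fun _ => rfl⟩
  have hδ : Continuous δ := by
    have : δ = fun g => c g / 4 := funext hδdef
    rw [this]; fun_prop
  have hδpos : ∀ g, 0 < δ g := fun g => by have := hcpos g; rw [hδdef]; linarith
  obtain ⟨r, hr, hrpos, hrδ, hrG⟩ := exists_scale G hG δ hδ hδpos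
  obtain ⟨ρ, hρdef⟩ : ∃ ρ : P → ℝ, ∀ g, ρ g = r g / 10 := ⟨fun g => r g / 10, fun _ => rfl⟩
  have hρ : Continuous ρ := by
    have : ρ = fun g => r g / 10 := funext hρdef
    rw [this]; fun_prop
  have hρpos : ∀ g, 0 < ρ g := fun g => by have := hrpos g; rw [hρdef]; linarith
  refine ⟨fun g x =>
    (1 - max 0 (min 1 (|G g x - x| / δ g - 1))) * (x - ρ g * Real.sin (x / ρ g)) +
        max 0 (min 1 (|G g x - x| / δ g - 1)) * G g x, ?_, ?_, ?_⟩
  · have hx : Continuous fun z : P × Icc (0:ℝ) 1 => (z.2 : ℝ) :=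
      continuous_subtype_val.comp continuous_snd
    have h1 : Continuous fun z : P × Icc (0:ℝ) 1 => |G z.1 z.2 - z.2| / δ z.1 :=
      Continuous.div (hG.sub hx).abs (hδ.comp continuous_fst) (fun z => (hδpos z.1).ne')
    have h2 : Continuous fun z : P × Icc (0:ℝ) 1 => (z.2 : ℝ) / ρ z.1 :=
      Continuous.div hx (hρ.comp continuous_fst) (fun z => (hρpos z.1).ne')
    have h3 : Continuous fun z : P × Icc (0:ℝ) 1 => Real.sin ((z.2 : ℝ) / ρ z.1) :=
      Real.continuous_sin.comp h2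
    have h4 : Continuous fun z : P × Icc (0:ℝ) 1 =>
        max 0 (min 1 (|G z.1 z.2 - z.2| / δ z.1 - 1)) :=
      continuous_const.max (continuous_const.min (h1.sub continuous_const))
    have h5 : Continuous fun z : P × Icc (0:ℝ) 1 => ρ z.1 := hρ.comp continuous_fst
    exact ((continuous_const.sub h4).mul (hx.sub (h5.mul h3))).add (h4.mul hG)
  · intro g x
    have h1 := blend_close x (G g x) (δ g) (ρ g) (hδpos g) (hρpos g)
    have h2 := hrδ g
    have h3 := hcpos g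
    have h4 := hδdef g
    have h5 := hρdef g
    refine h1.trans_lt ?_
    linarith
  · intro g p hp
    have hρ20 : ρ g ≤ 1 / 20 := by
      have h1 := hrδ g
      have h2 := hc1 g
      have h4 := hδdef g
      have h5 := hρdef g
      linarith
    obtain ⟨k, hk0, hk1, hk2, hk3⟩ := exists_window (ρ g) (hρpos g) hρ20 p p.2.1 p.2.2
    have hρg := hρpos g
    refine ⟨2 * Real.pi * k * ρ g - ρ g, 2 * Real.pi * k * ρ g + ρ g, ρ g / 2, hk0, hk1,
      by linarith, by linarith, by linarith, ?_⟩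
    intro x hxa hxb
    have h10 : r g = 10 * ρ g := by rw [hρdef]; ring
    have hxp : |(x:ℝ) - p| < r g := by
      rw [abs_lt, h10]; constructor <;> linarith
    have h1 := hrG g x p hxp
    have h2 : |G g x - x| ≤ δ g := by
      have h3 : G g x - x = (G g x - G g p) - ((x:ℝ) - p) := by rw [hp]; ring
      rw [h3]
      exact (abs_sub _ _).trans h1.le
    have h3 := blend_eq x (G g x) (δ g) (ρ g) (hδpos g) h2
    have h4 := abs_le.1 (wiggle_trap (ρ g) hρg k x (by rw [abs_le]; constructor <;> linarith))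
    simp only []
    rw [h3]
    constructor <;> linarith [h4.1, h4.2]

/-- A continuous family of surjections can be pushed, continuously, to surjections with a
trapping interval. -/
theorem exists_push {P : Type*} [TopologicalSpace P] (u : P → C(Icc (0:ℝ) 1, Icc (0:ℝ) 1))
    (hu : Continuous u) (hsu : ∀ g, Function.Surjective (u g))
    (ε : P → ℝ) (hε : Continuous ε) (hεpos : ∀ g, 0 < ε g) :
    ∃ ψ : P → C(Icc (0:ℝ) 1, Icc (0:ℝ) 1), Continuous ψ ∧ (∀ g, Function.Surjective (ψ g)) ∧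
      (∀ g, dist (ψ g) (u g) < ε g) ∧
      ∀ g, ∃ a b η : ℝ, 0 ≤ a ∧ b ≤ 1 ∧ a < b ∧ b - a < 1 ∧ 0 < η ∧
        ∀ x : Icc (0:ℝ) 1, a ≤ x → (x:ℝ) ≤ b → a + η ≤ (ψ g x : ℝ) ∧ (ψ g x : ℝ) ≤ b - η := by
  obtain ⟨c, hcdef⟩ : ∃ c : P → ℝ, ∀ g, c g = min (ε g) 1 / 4 :=
    ⟨fun g => min (ε g) 1 / 4, fun _ => rfl⟩
  have hc : Continuous c := by
    have : c = fun g => min (ε g) 1 / 4 := funext hcdef
    rw [this]; fun_prop
  have hcpos : ∀ g, 0 < c g := fun g => by
    have := lt_min (hεpos g) zero_lt_one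
    rw [hcdef]; linarith
  have hcε : ∀ g, 4 * c g ≤ ε g := fun g => by
    have := min_le_left (ε g) 1
    rw [hcdef]; linarith
  have hc1 : ∀ g, 4 * c g ≤ 1 := fun g => by
    have := min_le_right (ε g) 1
    rw [hcdef]; linarith
  obtain ⟨G, hGdef⟩ : ∃ G : P → Icc (0:ℝ) 1 → ℝ,
      ∀ g x, G g x = (1 + 2 * c g) * (u g x : ℝ) - c g :=
    ⟨fun g x => (1 + 2 * c g) * (u g x : ℝ) - c g, fun _ _ => rfl⟩
  have hev : Continuous fun z : P × Icc (0:ℝ) 1 => (u z.1 z.2 : ℝ) :=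
    continuous_subtype_val.comp
      (continuous_eval.comp ((hu.comp continuous_fst).prodMk continuous_snd))
  have hG : Continuous fun z : P × Icc (0:ℝ) 1 => G z.1 z.2 := by
    have h1 : Continuous fun z : P × Icc (0:ℝ) 1 => c z.1 := hc.comp continuous_fst
    simp only [hGdef]
    exact ((continuous_const.add (continuous_const.mul h1)).mul hev).sub h1
  have hGg : ∀ g x, |G g x - (u g x : ℝ)| ≤ c g := by
    intro g x
    have h0 := (u g x).2.1
    have h1 := (u g x).2.2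
    have h2 := hcpos g
    rw [abs_le, hGdef]
    constructor <;> nlinarith
  obtain ⟨B, hB, hBG, hBtrap⟩ := exists_blend G hG c hc hcpos hc1
  have hBg : ∀ g, Continuous (B g) := fun g => hB.comp (Continuous.prodMk_right g)
  obtain ⟨ψ, hψdef⟩ : ∃ ψ : P → C(Icc (0:ℝ) 1, Icc (0:ℝ) 1),
      ∀ g x, ψ g x = projIcc 0 1 zero_le_one (B g x) :=
    ⟨fun g => ⟨fun x => projIcc 0 1 zero_le_one (B g x), continuous_projIcc.comp (hBg g)⟩,
      fun _ _ => rfl⟩
  have hψ : Continuous ψ := by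
    refine ContinuousMap.continuous_of_continuous_uncurry ψ ?_
    have : (Function.uncurry fun x y => ψ x y) =
        fun z : P × Icc (0:ℝ) 1 => projIcc 0 1 zero_le_one (B z.1 z.2) := by
      funext z; exact hψdef z.1 z.2
    rw [this]
    exact continuous_projIcc.comp hB
  have hends : ∀ g, ∃ x0 x1, G g x0 = - c g ∧ G g x1 = 1 + c g := by
    intro g
    obtain ⟨x0, hx0⟩ := hsu g ⟨0, by simp⟩
    obtain ⟨x1, hx1⟩ := hsu g ⟨1, by simp⟩
    refine ⟨x0, x1, ?_, ?_⟩
    · rw [hGdef, hx0]; simp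
    · rw [hGdef, hx1]; simp only []; ring
  refine ⟨ψ, hψ, ?_, ?_, ?_⟩
  · intro g
    obtain ⟨x0, x1, hx0, hx1⟩ := hends g
    have h0 : ψ g x0 = ⟨0, by simp⟩ := by
      have h1 := abs_lt.1 (hBG g x0)
      rw [hψdef]
      exact projIcc_of_le_left zero_le_one (by linarith [h1.2])
    have h1 : ψ g x1 = ⟨1, by simp⟩ := by
      have h1 := abs_lt.1 (hBG g x1)
      rw [hψdef]
      exact projIcc_of_right_le zero_le_one (by linarith [h1.1])
    intro y
    have h2 := intermediate_value_univ x0 x1 (ψ g).continuous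
    rw [h0, h1] at h2
    exact h2 ⟨y.2.1, y.2.2⟩
  · intro g
    rw [ContinuousMap.dist_lt_iff (hεpos g)]
    intro x
    have h1 : dist (ψ g x) (u g x) = |(projIcc 0 1 zero_le_one (B g x) : ℝ) -
        projIcc 0 1 zero_le_one (u g x : ℝ)| := by
      rw [projIcc_val, hψdef]; rfl
    have h2 := Set.abs_projIcc_sub_projIcc (a := (0:ℝ)) (b := 1) (c := B g x) (d := u g x)
      zero_le_one
    have h3 := abs_lt.1 (hBG g x)
    have h4 := abs_le.1 (hGg g x)
    have h5 := hcε g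
    have h6 := hcpos g
    rw [h1]
    refine h2.trans_lt ?_
    rw [abs_lt]
    constructor <;> linarith [h3.1, h3.2, h4.1, h4.2]
  · intro g
    obtain ⟨x0, x1, hx0, hx1⟩ := hends g
    have hGc : Continuous (G g) := hG.comp (Continuous.prodMk_right g)
    have hfix : ∃ p : Icc (0:ℝ) 1, G g p = p := by
      refine intermediate_value_univ₂ (a := x0) (b := x1) hGc continuous_subtype_val ?_ ?_
      · have := hcpos g
        have := x0.2.1
        linarith
      · have := hcpos g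
        have := x1.2.2
        linarith
    obtain ⟨p, hp⟩ := hfix
    obtain ⟨a, b, η, ha, hb, hab, hlen, hη, htrap⟩ := hBtrap g p hp
    refine ⟨a, b, η, ha, hb, hab, hlen, hη, fun x hxa hxb => ?_⟩
    have h4 := htrap x hxa hxb
    have h5 : B g x ∈ Icc (0:ℝ) 1 := by
      constructor <;> linarith [h4.1, h4.2]
    rw [hψdef, projIcc_of_mem zero_le_one h5]
    exact h4

theorem zset_main :
    ∀ ε : {f : C(Set.Icc (0:ℝ) 1, Set.Icc (0:ℝ) 1) // Function.Surjective ⇑f} → ℝ,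
      Continuous ε → (∀ g, 0 < ε g) →
      ∃ φ : {f : C(Set.Icc (0:ℝ) 1, Set.Icc (0:ℝ) 1) // Function.Surjective ⇑f} →
          {f : C(Set.Icc (0:ℝ) 1, Set.Icc (0:ℝ) 1) // Function.Surjective ⇑f},
        Continuous φ ∧ ∀ g, dist (φ g) g < ε g ∧
          φ g ∉ closure {h : {f : C(Set.Icc (0:ℝ) 1, Set.Icc (0:ℝ) 1) // Function.Surjective ⇑f} |
            ∀ U V : Set (Set.Icc (0:ℝ) 1), IsOpen U → IsOpen V → U.Nonempty → V.Nonempty →
              ∃ n : ℕ, 0 < n ∧ ((⇑h.1)^[n] '' U ∩ V).Nonempty} := by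
  intro ε hε hεpos
  obtain ⟨ψ, hψ, hsurj, hdist, htrap⟩ := exists_push
    (fun g : {f : C(Set.Icc (0:ℝ) 1, Set.Icc (0:ℝ) 1) // Function.Surjective ⇑f} => g.1)
    continuous_subtype_val (fun g => g.2) ε hε hεpos
  refine ⟨fun g => ⟨ψ g, hsurj g⟩, hψ.subtype_mk _, fun g => ⟨hdist g, ?_⟩⟩
  obtain ⟨a, b, η, ha, hb, hab, hlen, hη, h⟩ := htrap g
  exact not_mem_closure ⟨ψ g, hsurj g⟩ a b η ha hb hab hlen hη h

end Pool.Agent.P.MP_1144d4_gt
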